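import Mathlib

/-!
Every `k`-choosable graph is the union of a `(k-1)`-degenerate graph and a graph of bounded
maximum degree; consequences for unions of choosable graphs.
-/

set_option autoImplicit false

namespace Pool.Agent.Lib_helper45.UB

open Finset Classical

/-- `G` is `k`-choosable: proper colourings exist from all lists of exactly `k` colours. -/
def Choosable {V : Type} (G : SimpleGraph V) (k : ℕ) : Prop :=
  ∀ L : V → Finset ℕ, (∀ v, (L v).card = k) →
    ∃ f : V → ℕ, (∀ v, f v ∈ L v) ∧ ∀ u v, G.Adj u v → f u ≠ f v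

/-- the neighbours of `v` in `X` -/
noncomputable def nb {V : Type} (H : SimpleGraph V) (X : Finset V) (v : V) : Finset V :=
  X.filter (fun x => H.Adj v x)

theorem mem_nb {V : Type} (H : SimpleGraph V) (X : Finset V) (v x : V) :
    x ∈ nb H X v ↔ x ∈ X ∧ H.Adj v x := by
  unfold nb
  rw [Finset.mem_filter]

/-- number of neighbours of `v` in `X` -/
noncomputable def deg {V : Type} (H : SimpleGraph V) (X : Finset V) (v : V) : ℕ :=
  (nb H X v).card

theorem deg_le_of {V : Type} {G H : SimpleGraph V} {X Y : Finset V} {u v : V}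
    (h : ∀ x, x ∈ X → G.Adj u x → (x ∈ Y ∧ H.Adj v x)) : deg G X u ≤ deg H Y v := by
  apply Finset.card_le_card
  intro x hx
  rw [mem_nb] at hx ⊢
  exact h x hx.1 hx.2

/-- a set all of whose members have more than `r` neighbours in `X` has at most `N |X|` members -/
def Dom {V : Type} (H : SimpleGraph V) (r N : ℕ) : Prop :=
  ∀ X Y : Finset V, Disjoint X Y → (∀ y ∈ Y, r < deg H X y) → Y.card ≤ N * X.card

/-! ### Lists that kill all colourings -/

theorem kill {X ι : Type} [Fintype X] (k : ℕ) (e : ι → Fin k → X) (Y : Finset ι) :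
    ∃ (P : ι → Fin k → Fin k) (S : Finset (X → Fin k)),
      (∀ c : X → Fin k, (∀ y ∈ Y, ¬ ∀ i, c (e y i) = P y i) → c ∈ S) ∧
      (k ^ k) ^ Y.card * S.card ≤ (k ^ k - 1) ^ Y.card * k ^ (Fintype.card X) := by
  induction Y using Finset.induction_on with
  | empty =>
    refine ⟨fun _ i => i, Finset.univ, fun c _ => Finset.mem_univ c, ?_⟩
    rw [Finset.card_empty, pow_zero, pow_zero, one_mul, one_mul, Finset.card_univ,
      Fintype.card_fun, Fintype.card_fin]
  | insert y Y hy ih =>
    obtain ⟨P, S, hS, hP⟩ := ih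
    have hq : Fintype.card (Fin k → Fin k) = k ^ k := by
      rw [Fintype.card_fun, Fintype.card_fin]
    obtain ⟨p, hp⟩ : ∃ p : Fin k → Fin k,
        S.card ≤ k ^ k * (S.filter (fun c => (fun i => c (e y i)) = p)).card := by
      by_contra hcon
      push Not at hcon
      have h1 : S.card = ∑ p : Fin k → Fin k,
          (S.filter (fun c => (fun i => c (e y i)) = p)).card := by
        exact Finset.card_eq_sum_card_fiberwise (fun c _ => Finset.mem_univ _)
      have h2 : ∑ p : Fin k → Fin k, k ^ k *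
          (S.filter (fun c => (fun i => c (e y i)) = p)).card
          < ∑ _p : Fin k → Fin k, S.card := by
        refine Finset.sum_lt_sum_of_nonempty ⟨fun i => i, Finset.mem_univ _⟩ ?_
        intro p _
        exact hcon p
      rw [← Finset.mul_sum, ← h1, Finset.sum_const, Finset.card_univ, hq, smul_eq_mul] at h2
      exact lt_irrefl _ h2
    generalize hF : S.filter (fun c => (fun i => c (e y i)) = p) = F at hp
    have hFS : F ⊆ S := by
      rw [← hF]
      exact Finset.filter_subset _ _
    refine ⟨Function.update P y p, S \ F, ?_, ?_⟩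
    · intro c hc
      rw [Finset.mem_sdiff]
      refine ⟨hS c (fun z hz => ?_), ?_⟩
      · have hzy : z ≠ y := fun h => hy (h ▸ hz)
        have h2 := hc z (Finset.mem_insert_of_mem hz)
        rwa [Function.update_of_ne hzy] at h2
      · intro hcF
        rw [← hF, Finset.mem_filter] at hcF
        have h2 := hc y (Finset.mem_insert_self y Y)
        rw [Function.update_self] at h2
        exact h2 (fun i => congrFun hcF.2 i)
    · rw [Finset.card_insert_of_notMem hy]
      have hcard : (S \ F).card = S.card - F.card := Finset.card_sdiff_of_subset hFS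
      have hstep : k ^ k * (S \ F).card ≤ (k ^ k - 1) * S.card := by
        rw [hcard, Nat.mul_sub, Nat.sub_mul, one_mul]
        exact Nat.sub_le_sub_left hp _
      generalize k ^ k = q at hstep hP ⊢
      calc q ^ (Y.card + 1) * (S \ F).card
          = q ^ Y.card * (q * (S \ F).card) := by rw [pow_succ, mul_assoc]
        _ ≤ q ^ Y.card * ((q - 1) * S.card) := Nat.mul_le_mul_left _ hstep
        _ = (q - 1) * (q ^ Y.card * S.card) := by ring
        _ ≤ (q - 1) * ((q - 1) ^ Y.card * k ^ (Fintype.card X)) :=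
            Nat.mul_le_mul_left _ hP
        _ = (q - 1) ^ (Y.card + 1) * k ^ (Fintype.card X) := by ring

/-! ### An inequality of powers -/

theorem bern (p n : ℕ) : p ^ n * (p + n) ≤ p * (p + 1) ^ n := by
  induction n with
  | zero => simp
  | succ n ih =>
    calc p ^ (n + 1) * (p + (n + 1)) = p ^ n * (p * (p + n + 1)) := by ring
      _ ≤ p ^ n * ((p + n) * (p + 1)) := by
          apply Nat.mul_le_mul_left
          nlinarith
      _ = (p ^ n * (p + n)) * (p + 1) := by ring
      _ ≤ (p * (p + 1) ^ n) * (p + 1) := Nat.mul_le_mul_right _ ih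
      _ = p * (p + 1) ^ (n + 1) := by ring

theorem two_mul_pow_le (q : ℕ) (hq : 1 ≤ q) : 2 * (q - 1) ^ q ≤ q ^ q := by
  obtain ⟨p, rfl⟩ : ∃ p, q = p + 1 := ⟨q - 1, by omega⟩
  simp only [Nat.add_sub_cancel]
  rcases Nat.eq_zero_or_pos p with rfl | hp
  · simp
  · have h := bern p (p + 1)
    have h2 : p * (2 * p ^ (p + 1)) ≤ p * (p + 1) ^ (p + 1) := by
      calc p * (2 * p ^ (p + 1)) ≤ p ^ (p + 1) * (p + (p + 1)) := by nlinarith [Nat.zero_le (p ^ (p + 1))]
        _ ≤ p * (p + 1) ^ (p + 1) := h
    exact Nat.le_of_mul_le_mul_left h2 hp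

theorem pow_lt (q k n m : ℕ) (hq : 1 ≤ q) (hn : 1 ≤ n) (hm : k * q * n ≤ m) :
    (q - 1) ^ m * k ^ n < q ^ m := by
  have h1 : (q - 1) ^ (k * q * n) * k ^ n < q ^ (k * q * n) := by
    have h2 : (2 * (q - 1) ^ q) ^ (k * n) ≤ (q ^ q) ^ (k * n) :=
      Nat.pow_le_pow_left (two_mul_pow_le q hq) _
    rw [mul_pow, ← pow_mul, ← pow_mul] at h2
    have e1 : q * (k * n) = k * q * n := by ring
    rw [e1] at h2
    have h3 : k ^ n < 2 ^ (k * n) := by
      rw [pow_mul]
      exact Nat.pow_lt_pow_left Nat.lt_two_pow_self (by omega)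
    rcases Nat.eq_zero_or_pos ((q - 1) ^ (k * q * n)) with h0 | h0
    · rw [h0, zero_mul]
      positivity
    · calc (q - 1) ^ (k * q * n) * k ^ n < (q - 1) ^ (k * q * n) * 2 ^ (k * n) :=
            Nat.mul_lt_mul_of_pos_left h3 h0
        _ = 2 ^ (k * n) * (q - 1) ^ (k * q * n) := mul_comm _ _
        _ ≤ q ^ (k * q * n) := h2
  obtain ⟨d, rfl⟩ : ∃ d, m = k * q * n + d := ⟨m - k * q * n, by omega⟩
  have h4 : (q - 1) ^ d ≤ q ^ d := Nat.pow_le_pow_left (by omega) _
  have h5 : 0 < q ^ d := by positivity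
  calc (q - 1) ^ (k * q * n + d) * k ^ n
      = ((q - 1) ^ (k * q * n) * k ^ n) * (q - 1) ^ d := by rw [pow_add]; ring
    _ ≤ ((q - 1) ^ (k * q * n) * k ^ n) * q ^ d := Nat.mul_le_mul_left _ h4
    _ < q ^ (k * q * n) * q ^ d := Nat.mul_lt_mul_of_pos_right h1 h5
    _ = q ^ (k * q * n + d) := (pow_add _ _ _).symm

/-! ### Choosable graphs satisfy `Dom` -/

theorem dom_of_choosable {V : Type} [Fintype V] (G : SimpleGraph V) (k : ℕ) (hk : 1 ≤ k)
    (hG : Choosable G k) : Dom G (k - 1) (k * k ^ k) := by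
  intro X Y hXY hdeg
  by_contra hcon
  push Not at hcon
  have hYpos : 0 < Y.card := by omega
  obtain ⟨y0, hy0⟩ := Finset.card_pos.mp hYpos
  have hdeg' : ∀ y ∈ Y, k ≤ deg G X y := fun y hy => by
    have := hdeg y hy
    omega
  have hXne : X.Nonempty := by
    rw [Finset.nonempty_iff_ne_empty]
    rintro rfl
    have := hdeg' y0 hy0
    simp only [deg, nb, Finset.filter_empty, Finset.card_empty] at this
    omega
  obtain ⟨x0, hx0⟩ := hXne
  have hex : ∀ y : V, ∃ e : Fin k → {x // x ∈ X}, y ∈ Y →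
      (Function.Injective e ∧ ∀ i, G.Adj y (e i).1) := by
    intro y
    by_cases hy : y ∈ Y
    · have h1 : Fintype.card (Fin k) ≤ Fintype.card {x // x ∈ nb G X y} := by
        rw [Fintype.card_fin, Fintype.card_coe]
        exact hdeg' y hy
      obtain ⟨g⟩ := Function.Embedding.nonempty_of_card_le h1
      refine ⟨fun i => ⟨(g i).1, ((mem_nb G X y _).mp (g i).2).1⟩, fun _ => ⟨?_, ?_⟩⟩
      · intro i j hij
        apply g.injective
        apply Subtype.ext
        exact congrArg (fun z : {x // x ∈ X} => z.1) hij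
      · intro i
        exact ((mem_nb G X y _).mp (g i).2).2
    · exact ⟨fun _ => ⟨x0, hx0⟩, fun h => absurd h hy⟩
  choose e he using hex
  obtain ⟨P, S, hS, hP⟩ := kill k e Y
  have hcX : Fintype.card {x // x ∈ X} = X.card := Fintype.card_coe X
  rw [hcX] at hP
  have hXpos : 1 ≤ X.card := Finset.card_pos.mpr ⟨x0, hx0⟩
  have hqpos : 1 ≤ k ^ k := Nat.one_le_iff_ne_zero.mpr (by positivity)
  have hlt := pow_lt (k ^ k) k X.card Y.card hqpos hXpos hcon.le
  have hzero : ∀ c : {x // x ∈ X} → Fin k, ∃ y ∈ Y, ∀ i, c (e y i) = P y i := by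
    intro c
    by_contra hne
    have hc : ∀ y ∈ Y, ¬ ∀ i, c (e y i) = P y i := fun y hy h => hne ⟨y, hy, h⟩
    have h1 : 1 ≤ S.card := Finset.card_pos.mpr ⟨c, hS c hc⟩
    generalize k ^ k = q at hlt hP
    generalize (q - 1) ^ Y.card * k ^ X.card = b at hlt hP
    generalize q ^ Y.card = a at hlt hP
    have h2 : a * 1 ≤ a * S.card := Nat.mul_le_mul_left _ h1
    omega
  -- the lists
  let idx : V → ℕ := fun v => (Fintype.equivFin V v : ℕ)
  have hidx : Function.Injective idx := by
    intro a b hab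
    exact (Fintype.equivFin V).injective (Fin.ext hab)
  let L : V → Finset ℕ := fun v =>
    if v ∈ Y then univ.image (fun i : Fin k => Nat.pair (idx (e v i).1) (P v i : ℕ))
    else univ.image (fun i : Fin k => Nat.pair (idx v) (i : ℕ))
  have hL : ∀ v, (L v).card = k := by
    intro v
    by_cases hv : v ∈ Y
    · simp only [L, if_pos hv]
      rw [Finset.card_image_of_injective, Finset.card_univ, Fintype.card_fin]
      intro i j hij
      have h1 := (Nat.pair_eq_pair.mp hij).1
      exact (he v hv).1 (Subtype.ext (hidx h1))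
    · simp only [L, if_neg hv]
      rw [Finset.card_image_of_injective, Finset.card_univ, Fintype.card_fin]
      intro i j hij
      exact Fin.ext (Nat.pair_eq_pair.mp hij).2
  obtain ⟨f, hf, hprop⟩ := hG L hL
  have hc : ∀ x : {x // x ∈ X}, ∃ j : Fin k, f x.1 = Nat.pair (idx x.1) (j : ℕ) := by
    intro x
    have hxY : x.1 ∉ Y := Finset.disjoint_left.mp hXY x.2
    have h1 := hf x.1
    simp only [L, if_neg hxY, Finset.mem_image, Finset.mem_univ, true_and] at h1
    obtain ⟨j, hj⟩ := h1
    exact ⟨j, hj.symm⟩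
  choose c hc using hc
  obtain ⟨y, hy, hyc⟩ := hzero c
  have h3 := hf y
  simp only [L, if_pos hy, Finset.mem_image, Finset.mem_univ, true_and] at h3
  obtain ⟨i, hi⟩ := h3
  have h4 : f y = f (e y i).1 := by
    rw [← hi, hc (e y i), hyc i]
  exact hprop y (e y i).1 ((he y hy).2 i) h4

end Pool.Agent.Lib_helper45.UB
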