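import Pool.Agent.Lib_helper45.UB.Light

set_option autoImplicit false

namespace Pool.Agent.Lib_helper45.UB

open Finset Classical

variable {V : Type}

/-- every nonempty finite set has a member with at most `r` neighbours in it -/
def Degen (Z : SimpleGraph V) (r : ℕ) : Prop :=
  ∀ W : Finset V, W.Nonempty → ∃ y ∈ W, deg Z W y ≤ r

theorem decomp_aux (H : SimpleGraph V) (r N : ℕ) (hD : Dom H r N) :
    ∀ (n : ℕ) (W : Finset V), W.card = n → ∃ B : SimpleGraph V, B ≤ H ∧
      (∀ u v, B.Adj u v → u ∈ W ∧ v ∈ W) ∧ (∀ v, deg B W v ≤ bnd r N) ∧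
      (∀ S ⊆ W, S.Nonempty → ∃ y ∈ S, deg (H \ B) S y ≤ r) := by
  intro n
  induction n with
  | zero =>
    intro W hW
    rw [Finset.card_eq_zero] at hW
    subst hW
    refine ⟨⊥, bot_le, ?_, ?_, ?_⟩
    · intro u v h
      exact absurd h (by simp)
    · intro v
      simp [deg, nb]
    · intro S hS hne
      rw [Finset.subset_empty] at hS
      exact absurd hS (Finset.nonempty_iff_ne_empty.mp hne)
  | succ n ih =>
    intro W hW
    have hWne : W.Nonempty := Finset.card_pos.mp (by omega)
    obtain ⟨y, hy, hyd, hyh⟩ := good_vertex H r N hD W hWne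
    obtain ⟨B', hB'H, hB'W, hB'd, hB'g⟩ := ih (W.erase y)
      (by rw [Finset.card_erase_of_mem hy]; omega)
    let B : SimpleGraph V :=
      { Adj := fun u v => B'.Adj u v ∨
          (u = y ∧ v ∈ W.erase y ∧ H.Adj y v ∧ deg H W v ≤ bnd r N) ∨
          (v = y ∧ u ∈ W.erase y ∧ H.Adj y u ∧ deg H W u ≤ bnd r N)
        symm := ⟨by
          intro u v h
          rcases h with h | h | h
          · exact Or.inl h.symm
          · exact Or.inr (Or.inr h)
          · exact Or.inr (Or.inl h)⟩
        loopless := ⟨by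
          intro u h
          rcases h with h | h | h
          · exact B'.loopless.irrefl u h
          · exact (Finset.notMem_erase y W) (h.1 ▸ h.2.1)
          · exact (Finset.notMem_erase y W) (h.1 ▸ h.2.1)⟩ }
    have hBadj : ∀ u v, B.Adj u v ↔ (B'.Adj u v ∨
          (u = y ∧ v ∈ W.erase y ∧ H.Adj y v ∧ deg H W v ≤ bnd r N) ∨
          (v = y ∧ u ∈ W.erase y ∧ H.Adj y u ∧ deg H W u ≤ bnd r N)) := fun u v => Iff.rfl
    have hBH : B ≤ H := by
      intro u v h
      rw [hBadj] at h
      rcases h with h | h | h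
      · exact hB'H h
      · rw [h.1]
        exact h.2.2.1
      · rw [h.1]
        exact h.2.2.1.symm
    refine ⟨B, hBH, ?_, ?_, ?_⟩
    · intro u v h
      rw [hBadj] at h
      rcases h with h | h | h
      · exact ⟨Finset.mem_of_mem_erase (hB'W u v h).1, Finset.mem_of_mem_erase (hB'W u v h).2⟩
      · exact ⟨h.1 ▸ hy, Finset.mem_of_mem_erase h.2.1⟩
      · exact ⟨Finset.mem_of_mem_erase h.2.1, h.1 ▸ hy⟩
    · intro v
      by_cases hv : deg H W v ≤ bnd r N
      · exact le_trans (deg_mono_graph hBH W v) hv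
      · have hvy : v ≠ y := fun h => hv (h ▸ hyd)
        refine le_trans (deg_le_of ?_) (hB'd v)
        intro x _ h
        rw [hBadj] at h
        rcases h with h | h | h
        · exact ⟨(hB'W v x h).2, h⟩
        · exact absurd h.1 hvy
        · exact absurd h.2.2.2 hv
    · intro S hS hne
      by_cases hyS : y ∈ S
      · refine ⟨y, hyS, le_trans (Finset.card_le_card ?_) hyh⟩
        intro x hx
        rw [mem_nb] at hx
        rw [Finset.mem_filter]
        obtain ⟨h1, h2⟩ := hx
        rw [SimpleGraph.sdiff_adj] at h2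
        refine ⟨hS h1, h2.1, ?_⟩
        by_contra h3
        apply h2.2
        rw [hBadj]
        refine Or.inr (Or.inl ⟨rfl, Finset.mem_erase.mpr ⟨?_, hS h1⟩, h2.1, not_lt.mp h3⟩)
        exact h2.1.ne'
      · have hS' : S ⊆ W.erase y := by
          intro x hx
          exact Finset.mem_erase.mpr ⟨fun h => hyS (h ▸ hx), hS hx⟩
        obtain ⟨z, hz, hzd⟩ := hB'g S hS' hne
        refine ⟨z, hz, le_trans (deg_le_of ?_) hzd⟩
        intro x hx h2
        refine ⟨hx, ?_⟩
        rw [SimpleGraph.sdiff_adj] at h2 ⊢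
        exact ⟨h2.1, fun h => h2.2 ((hBadj z x).mpr (Or.inl h))⟩

theorem decomp [Fintype V] (H : SimpleGraph V) (r N : ℕ) (hD : Dom H r N) :
    ∃ B : SimpleGraph V, B ≤ H ∧ (∀ v, (B.neighborSet v).ncard ≤ bnd r N) ∧
      Degen (H \ B) r := by
  obtain ⟨B, h1, -, h2, h3⟩ := decomp_aux H r N hD _ Finset.univ rfl
  refine ⟨B, h1, ?_, fun W hW => h3 W (Finset.subset_univ W) hW⟩
  intro v
  have h4 : (B.neighborSet v).ncard = deg B Finset.univ v := by
    unfold deg
    rw [← Set.ncard_coe_finset]
    congr 1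
    ext x
    rw [Finset.mem_coe, mem_nb, SimpleGraph.mem_neighborSet]
    simp
  rw [h4]
  exact h2 v

/-- in an `r`-degenerate graph one can choose `m`-subsets of lists of `(r+1) m` colours -/
theorem choose_sets (Z : SimpleGraph V) (r m : ℕ) (hZ : Degen Z r)
    (L : V → Finset ℕ) (hL : ∀ v, m * (r + 1) ≤ (L v).card) :
    ∀ (n : ℕ) (W : Finset V), W.card = n → ∃ φ : V → Finset ℕ,
      (∀ v ∈ W, φ v ⊆ L v ∧ (φ v).card = m) ∧
      ∀ u ∈ W, ∀ v ∈ W, Z.Adj u v → Disjoint (φ u) (φ v) := by
  intro n
  induction n with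
  | zero =>
    intro W hW
    rw [Finset.card_eq_zero] at hW
    subst hW
    exact ⟨fun _ => ∅, by simp, by simp⟩
  | succ n ih =>
    intro W hW
    have hWne : W.Nonempty := Finset.card_pos.mp (by omega)
    obtain ⟨y, hy, hyd⟩ := hZ W hWne
    obtain ⟨φ, hφ1, hφ2⟩ := ih (W.erase y) (by rw [Finset.card_erase_of_mem hy]; omega)
    set U := (nb Z W y).biUnion φ with hU
    have hmem : ∀ x ∈ nb Z W y, x ∈ W.erase y := by
      intro x hx
      rw [mem_nb] at hx
      exact Finset.mem_erase.mpr ⟨hx.2.ne', hx.1⟩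
    have hUc : U.card ≤ m * r := by
      calc U.card ≤ ∑ x ∈ nb Z W y, (φ x).card := Finset.card_biUnion_le
        _ = ∑ _x ∈ nb Z W y, m :=
            Finset.sum_congr rfl (fun x hx => (hφ1 x (hmem x hx)).2)
        _ = (nb Z W y).card * m := by rw [Finset.sum_const, smul_eq_mul]
        _ ≤ r * m := Nat.mul_le_mul_right _ hyd
        _ = m * r := mul_comm _ _
    have hA : m ≤ (L y \ U).card := by
      have h1 := Finset.le_card_sdiff U (L y)
      have h2 := hL y
      have h3 : m * (r + 1) = m * r + m := by ring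
      omega
    obtain ⟨T, hT1, hT2⟩ := Finset.exists_subset_card_eq hA
    have hTU : Disjoint T U := by
      rw [Finset.disjoint_left]
      intro a ha
      exact (Finset.mem_sdiff.mp (hT1 ha)).2
    have hTd : ∀ x ∈ W, Z.Adj y x → Disjoint T (φ x) := by
      intro x hx hadj
      exact Finset.disjoint_of_subset_right
        (Finset.subset_biUnion_of_mem φ ((mem_nb Z W y x).mpr ⟨hx, hadj⟩)) hTU
    refine ⟨Function.update φ y T, ?_, ?_⟩
    · intro v hv
      by_cases hvy : v = y
      · subst hvy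
        rw [Function.update_self]
        exact ⟨fun a ha => (Finset.mem_sdiff.mp (hT1 ha)).1, hT2⟩
      · rw [Function.update_of_ne hvy]
        exact hφ1 v (Finset.mem_erase.mpr ⟨hvy, hv⟩)
    · intro u hu v hv hadj
      by_cases huy : u = y
      · subst huy
        have hvu : v ≠ u := hadj.ne'
        rw [Function.update_self, Function.update_of_ne hvu]
        exact hTd v hv hadj
      · by_cases hvy : v = y
        · subst hvy
          rw [Function.update_self, Function.update_of_ne huy]
          exact (hTd u hu hadj.symm).symm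
        · rw [Function.update_of_ne huy, Function.update_of_ne hvy]
          exact hφ2 u (Finset.mem_erase.mpr ⟨huy, hu⟩) v (Finset.mem_erase.mpr ⟨hvy, hv⟩) hadj

/-- union of a choosable and a degenerate graph -/
theorem choosable_sup [Fintype V] (G Z : SimpleGraph V) (k r : ℕ) (hG : Choosable G k)
    (hZ : Degen Z r) : Choosable (G ⊔ Z) (k * (r + 1)) := by
  intro L hL
  obtain ⟨φ, h1, h2⟩ := choose_sets Z r k hZ L (fun v => (hL v).ge) _ Finset.univ rfl
  obtain ⟨f, hf, hprop⟩ := hG φ (fun v => (h1 v (Finset.mem_univ v)).2)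
  refine ⟨f, fun v => (h1 v (Finset.mem_univ v)).1 (hf v), ?_⟩
  intro u v h
  rcases h with h | h
  · exact hprop u v h
  · intro heq
    have h3 := h2 u (Finset.mem_univ u) v (Finset.mem_univ v) h
    exact Finset.disjoint_left.mp h3 (hf u) (heq ▸ hf v)

theorem choosable_bot : Choosable (⊥ : SimpleGraph V) 1 := by
  intro L hL
  have h1 : ∀ v, ∃ a, a ∈ L v := fun v => Finset.card_pos.mp (by rw [hL v]; exact Nat.one_pos)
  choose f hf using h1
  exact ⟨f, hf, fun u v h => absurd h (by simp)⟩

theorem choosable_of_degen [Fintype V] (Z : SimpleGraph V) (r : ℕ) (hZ : Degen Z r) :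
    Choosable Z (r + 1) := by
  have h := choosable_sup (⊥ : SimpleGraph V) Z 1 r choosable_bot hZ
  rwa [bot_sup_eq, one_mul] at h

end Pool.Agent.Lib_helper45.UB
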