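import Pool.Agent.Lib_helper45.UB.Core

set_option autoImplicit false

namespace Pool.Agent.Lib_helper45.UB

open Finset Classical

variable {V : Type}

theorem deg_mono_set (H : SimpleGraph V) {X Y : Finset V} (h : X ⊆ Y) (v : V) :
    deg H X v ≤ deg H Y v :=
  deg_le_of (fun _ hx hadj => ⟨h hx, hadj⟩)

theorem deg_mono_graph {B H : SimpleGraph V} (h : B ≤ H) (X : Finset V) (v : V) :
    deg B X v ≤ deg H X v :=
  deg_le_of (fun _ hx hadj => ⟨hx, h hadj⟩)

theorem deg_sup_le (G H : SimpleGraph V) (X : Finset V) (v : V) :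
    deg (G ⊔ H) X v ≤ deg G X v + deg H X v := by
  unfold deg
  refine le_trans (Finset.card_le_card ?_) (Finset.card_union_le (nb G X v) (nb H X v))
  intro x hx
  rw [mem_nb] at hx
  rw [Finset.mem_union, mem_nb, mem_nb]
  rcases hx with ⟨h1, h2⟩
  rcases h2 with h2 | h2
  · exact Or.inl ⟨h1, h2⟩
  · exact Or.inr ⟨h1, h2⟩

theorem dom_union (G H : SimpleGraph V) (r s N M : ℕ) (hG : Dom G r N) (hH : Dom H s M) :
    Dom (G ⊔ H) (r + s) (N + M) := by
  intro X Y hXY hdeg
  have h1 : Y ⊆ Y.filter (fun y => r < deg G X y) ∪ Y.filter (fun y => s < deg H X y) := by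
    intro y hy
    rw [Finset.mem_union, Finset.mem_filter, Finset.mem_filter]
    have h2 := hdeg y hy
    have h3 := deg_sup_le G H X y
    by_cases h4 : r < deg G X y
    · exact Or.inl ⟨hy, h4⟩
    · exact Or.inr ⟨hy, by omega⟩
  have h2 : (Y.filter (fun y => r < deg G X y)).card ≤ N * X.card := by
    apply hG X
    · exact Finset.disjoint_of_subset_right (Finset.filter_subset _ _) hXY
    · intro y hy
      exact (Finset.mem_filter.mp hy).2
  have h3 : (Y.filter (fun y => s < deg H X y)).card ≤ M * X.card := by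
    apply hH X
    · exact Finset.disjoint_of_subset_right (Finset.filter_subset _ _) hXY
    · intro y hy
      exact (Finset.mem_filter.mp hy).2
  calc Y.card ≤ _ := Finset.card_le_card h1
    _ ≤ _ := Finset.card_union_le _ _
    _ ≤ N * X.card + M * X.card := Nat.add_le_add h2 h3
    _ = (N + M) * X.card := (Nat.add_mul _ _ _).symm

theorem deg_insert (H : SimpleGraph V) (X : Finset V) (v y : V) (hv : v ∉ X) :
    deg H (insert v X) y = deg H X y + (if H.Adj y v then 1 else 0) := by
  unfold deg nb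
  rw [Finset.filter_insert]
  split_ifs with h
  · rw [Finset.card_insert_of_notMem]
    intro h2
    exact hv (Finset.mem_filter.mp h2).1
  · rfl

theorem deg_sdiff (H : SimpleGraph V) {X W : Finset V} (h : X ⊆ W) (y : V) :
    deg H W y = deg H X y + deg H (W \ X) y := by
  unfold deg
  rw [← Finset.card_union_of_disjoint]
  · congr 1
    ext x
    rw [Finset.mem_union, mem_nb, mem_nb, mem_nb, Finset.mem_sdiff]
    constructor
    · rintro ⟨h1, h2⟩
      by_cases h3 : x ∈ X
      · exact Or.inl ⟨h3, h2⟩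
      · exact Or.inr ⟨⟨h1, h3⟩, h2⟩
    · rintro (⟨h1, h2⟩ | ⟨⟨h1, -⟩, h2⟩)
      · exact ⟨h h1, h2⟩
      · exact ⟨h1, h2⟩
  · rw [Finset.disjoint_left]
    intro x h1 h2
    rw [mem_nb] at h1 h2
    exact (Finset.mem_sdiff.mp h2.1).2 h1.1

/-- In a graph with `Dom H r N`, only a small part of `W` has many neighbours in `W`. -/
theorem heavy_few (H : SimpleGraph V) (r N : ℕ) (hD : Dom H r N) (W X0 : Finset V) (M : ℕ) (hM : ∀ x ∈ X0, M ≤ deg H W x) :
    (M - (r + 1)) * X0.card ≤ 4 * (1 + N) * (r + 1) * W.card := by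
  set κ := r + 1 with hκ
  set lam := 2 * (1 + N) * κ with hlam
  let f : Finset V → ℤ := fun X => (∑ y ∈ X0, (min (deg H X y) κ : ℕ) : ℕ) - (lam * X.card : ℕ)
  obtain ⟨X, hX, hmax⟩ := Finset.exists_max_image W.powerset f
    ⟨∅, Finset.empty_mem_powerset W⟩
  have hXW : X ⊆ W := Finset.mem_powerset.mp hX
  -- (i)
  have h1 : lam * X.card ≤ κ * X0.card := by
    have h2 := hmax ∅ (Finset.empty_mem_powerset W)
    have h3 : f ∅ = 0 := by
      simp [f, deg, nb]
    rw [h3] at h2
    have h4 : (lam * X.card : ℕ) ≤ ∑ y ∈ X0, min (deg H X y) κ := by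
      simp only [f] at h2
      exact_mod_cast sub_nonneg.mp h2
    refine le_trans h4 ?_
    calc ∑ y ∈ X0, min (deg H X y) κ ≤ ∑ _y ∈ X0, κ :=
          Finset.sum_le_sum (fun y _ => min_le_right _ _)
      _ = κ * X0.card := by rw [Finset.sum_const, smul_eq_mul, mul_comm]
  set Q := X0.filter (fun y => deg H X y < κ) with hQ
  -- (ii)
  have h2 : ∀ v ∈ W \ X, (Q.filter (fun y => H.Adj y v)).card ≤ lam := by
    intro v hv
    rw [Finset.mem_sdiff] at hv
    have h3 := hmax (insert v X) (Finset.mem_powerset.mpr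
      (Finset.insert_subset hv.1 hXW))
    have h4 : ∑ y ∈ X0, min (deg H (insert v X) y) κ
        = ∑ y ∈ X0, min (deg H X y) κ + (Q.filter (fun y => H.Adj y v)).card := by
      have h5 : (Q.filter (fun y => H.Adj y v)).card
          = ∑ y ∈ X0, (if deg H X y < κ ∧ H.Adj y v then 1 else 0) := by
        rw [hQ, Finset.filter_filter, Finset.card_filter]
      rw [h5, ← Finset.sum_add_distrib]
      apply Finset.sum_congr rfl
      intro y _
      rw [deg_insert H X v y hv.2]
      by_cases hadj : H.Adj y v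
      · by_cases hlt : deg H X y < κ
        · rw [if_pos hadj, if_pos ⟨hlt, hadj⟩]
          omega
        · rw [if_pos hadj, if_neg (fun h => hlt h.1)]
          omega
      · rw [if_neg hadj, if_neg (fun h => hadj h.2)]
        omega
    simp only [f] at h3
    rw [h4, Finset.card_insert_of_notMem hv.2] at h3
    push_cast at h3
    have h6 : ((Q.filter (fun y => H.Adj y v)).card : ℤ) ≤ (lam : ℤ) := by
      have h7 : (lam : ℤ) * ((X.card : ℤ) + 1) = lam * X.card + lam := by ring
      rw [h7] at h3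
      linarith
    exact_mod_cast h6
  -- (iii)
  have h3 : (M - κ) * Q.card ≤ lam * W.card := by
    have h4 : ∑ y ∈ Q, deg H (W \ X) y ≤ lam * W.card := by
      calc ∑ y ∈ Q, deg H (W \ X) y
          = ∑ y ∈ Q, ∑ v ∈ W \ X, (if H.Adj y v then 1 else 0) := by
            apply Finset.sum_congr rfl
            intro y _
            unfold deg nb
            rw [Finset.card_filter]
        _ = ∑ v ∈ W \ X, ∑ y ∈ Q, (if H.Adj y v then 1 else 0) := Finset.sum_comm
        _ = ∑ v ∈ W \ X, (Q.filter (fun y => H.Adj y v)).card := by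
            apply Finset.sum_congr rfl
            intro v _
            rw [Finset.card_filter]
        _ ≤ ∑ _v ∈ W \ X, lam := Finset.sum_le_sum h2
        _ = (W \ X).card * lam := by rw [Finset.sum_const, smul_eq_mul]
        _ ≤ W.card * lam := Nat.mul_le_mul_right _ (Finset.card_le_card Finset.sdiff_subset)
        _ = lam * W.card := mul_comm _ _
    refine le_trans ?_ h4
    calc (M - κ) * Q.card = ∑ _y ∈ Q, (M - κ) := by rw [Finset.sum_const, smul_eq_mul, mul_comm]
      _ ≤ ∑ y ∈ Q, deg H (W \ X) y := by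
          apply Finset.sum_le_sum
          intro y hy
          rw [hQ, Finset.mem_filter] at hy
          have h5 := hM y hy.1
          rw [deg_sdiff H hXW y] at h5
          omega
  -- (iv)
  have h4 : ((X0 \ Q) \ X).card ≤ N * X.card := by
    apply hD X
    · exact Finset.disjoint_sdiff
    · intro y hy
      rw [Finset.mem_sdiff, Finset.mem_sdiff] at hy
      have h5 : ¬ (deg H X y < κ) := fun h => hy.1.2 (Finset.mem_filter.mpr ⟨hy.1.1, h⟩)
      omega
  have h5 : X0.card ≤ Q.card + (X.card + ((X0 \ Q) \ X).card) := by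
    have h6 : X0 ⊆ Q ∪ (X ∪ ((X0 \ Q) \ X)) := by
      intro y hy
      simp only [Finset.mem_union, Finset.mem_sdiff]
      tauto
    calc X0.card ≤ _ := Finset.card_le_card h6
      _ ≤ _ := Finset.card_union_le _ _
      _ ≤ _ := Nat.add_le_add_left (Finset.card_union_le _ _) _
  have h6 : X0.card ≤ 2 * Q.card := by
    have h7 : X0.card ≤ Q.card + (1 + N) * X.card := by
      have : (1 + N) * X.card = X.card + N * X.card := by ring
      omega
    have h8 : 2 * κ * X0.card ≤ 2 * κ * Q.card + κ * X0.card := by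
      calc 2 * κ * X0.card ≤ 2 * κ * (Q.card + (1 + N) * X.card) := Nat.mul_le_mul_left _ h7
        _ = 2 * κ * Q.card + lam * X.card := by rw [hlam]; ring
        _ ≤ 2 * κ * Q.card + κ * X0.card := Nat.add_le_add_left h1 _
    have h9 : κ * X0.card ≤ κ * (2 * Q.card) := by nlinarith
    exact Nat.le_of_mul_le_mul_left h9 (Nat.succ_pos r)
  calc (M - κ) * X0.card ≤ (M - κ) * (2 * Q.card) := Nat.mul_le_mul_left _ h6
    _ = 2 * ((M - κ) * Q.card) := by ring
    _ ≤ 2 * (lam * W.card) := Nat.mul_le_mul_left _ h3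
    _ = 4 * (1 + N) * κ * W.card := by rw [hlam]; ring

/-- the degree bound of the decomposition -/
def bnd (r N : ℕ) : ℕ := (r + 1) + 4 * (r + 1) * (1 + N) ^ 2

theorem good_vertex (H : SimpleGraph V) (r N : ℕ) (hD : Dom H r N) (W : Finset V)
    (hW : W.Nonempty) :
    ∃ y ∈ W, deg H W y ≤ bnd r N ∧
      (W.filter (fun x => H.Adj y x ∧ bnd r N < deg H W x)).card ≤ r := by
  by_contra hcon
  push Not at hcon
  set X0 := W.filter (fun x => bnd r N < deg H W x) with hX0
  have hsub : X0 ⊆ W := Finset.filter_subset _ _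
  have h1 : (W \ X0).card ≤ N * X0.card := by
    apply hD X0
    · exact Finset.disjoint_sdiff
    · intro y hy
      rw [Finset.mem_sdiff] at hy
      have h2 : deg H W y ≤ bnd r N := by
        by_contra h3
        exact hy.2 (Finset.mem_filter.mpr ⟨hy.1, not_le.mp h3⟩)
      have h3 := hcon y hy.1 h2
      have h4 : deg H X0 y = (W.filter (fun x => H.Adj y x ∧ bnd r N < deg H W x)).card := by
        unfold deg
        congr 1
        ext x
        rw [mem_nb, hX0, Finset.mem_filter, Finset.mem_filter]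
        tauto
      rw [h4]
      exact h3
  have h2 : W.card ≤ (1 + N) * X0.card := by
    have h3 : (W \ X0).card = W.card - X0.card := Finset.card_sdiff_of_subset hsub
    have h4 : X0.card ≤ W.card := Finset.card_le_card hsub
    have h5 : (1 + N) * X0.card = X0.card + N * X0.card := by ring
    omega
  have h3 := heavy_few H r N hD W X0 (bnd r N + 1) (fun x hx => by
    rw [hX0, Finset.mem_filter] at hx
    exact hx.2)
  have h4 : bnd r N + 1 - (r + 1) = 4 * (r + 1) * (1 + N) ^ 2 + 1 := by
    unfold bnd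
    omega
  rw [h4] at h3
  have h5 : (4 * (r + 1) * (1 + N) ^ 2 + 1) * X0.card ≤ 4 * (r + 1) * (1 + N) ^ 2 * X0.card := by
    calc _ ≤ 4 * (1 + N) * (r + 1) * W.card := h3
      _ ≤ 4 * (1 + N) * (r + 1) * ((1 + N) * X0.card) := Nat.mul_le_mul_left _ h2
      _ = _ := by ring
  have h6 : X0.card = 0 := by
    rw [Nat.add_mul, one_mul] at h5
    omega
  rw [h6, mul_zero] at h2
  have h7 := Finset.card_pos.mpr hW
  omega

end Pool.Agent.Lib_helper45.UB
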