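import Pool.Agent.Lib_helper45.UB.Decomp

set_option autoImplicit false

namespace Pool.Agent.Lib_helper45.UB

open Finset Classical

/-- complete bipartite graph between the part `A` of the first summand and the second summand -/
def bip {I Q : Type} (A : Finset I) : SimpleGraph (I ⊕ Q) where
  Adj := fun a b => ∃ i ∈ A, ∃ q : Q, (a = Sum.inl i ∧ b = Sum.inr q) ∨
    (a = Sum.inr q ∧ b = Sum.inl i)
  symm := ⟨by
    rintro a b ⟨i, hi, q, h | h⟩
    · exact ⟨i, hi, q, Or.inr ⟨h.2, h.1⟩⟩
    · exact ⟨i, hi, q, Or.inl ⟨h.2, h.1⟩⟩⟩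
  loopless := ⟨by
    rintro a ⟨i, hi, q, h | h⟩
    · rw [h.1] at h
      exact absurd h.2 (by simp)
    · rw [h.1] at h
      exact absurd h.2 (by simp)⟩

theorem bip_choosable {I Q : Type} (A : Finset I) (m : ℕ) (hA : A.card < m) :
    Choosable (bip (Q := Q) A) m := by
  intro L hL
  have h1 : ∀ v, ∃ a, a ∈ L v := fun v => Finset.card_pos.mp (by rw [hL v]; omega)
  choose g hg using h1
  have h2 : ∀ q : Q, ∃ a, a ∈ L (Sum.inr q) ∧ a ∉ A.image (fun i => g (Sum.inl i)) := by
    intro q
    have h3 : (A.image (fun i => g (Sum.inl i))).card < (L (Sum.inr q)).card := by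
      rw [hL]
      exact lt_of_le_of_lt Finset.card_image_le hA
    obtain ⟨a, ha, hb⟩ := Finset.exists_mem_notMem_of_card_lt_card h3
    exact ⟨a, ha, hb⟩
  choose r hr1 hr2 using h2
  refine ⟨Sum.elim (fun i => g (Sum.inl i)) r, ?_, ?_⟩
  · rintro (i | q)
    · exact hg _
    · exact hr1 q
  · rintro u v ⟨i, hi, q, h | h⟩
    · rw [h.1, h.2]
      intro heq
      simp only [Sum.elim_inl, Sum.elim_inr] at heq
      exact hr2 q (Finset.mem_image.mpr ⟨i, hi, heq⟩)
    · rw [h.1, h.2]
      intro heq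
      simp only [Sum.elim_inl, Sum.elim_inr] at heq
      exact hr2 q (Finset.mem_image.mpr ⟨i, hi, heq.symm⟩)

theorem sharp (k l D : ℕ) (hk : 1 ≤ k) (hl : 1 ≤ l) :
    ∃ (V : Type) (_ : Fintype V) (G H : SimpleGraph V) (L : V → Finset ℕ),
      Choosable G k ∧ Choosable H l ∧ (∀ v, (L v).card = k + l - 2) ∧
      ∀ f : V → ℕ, (∀ v, f v ∈ L v) →
        ∃ v, D < {u | (G ⊔ H).Adj v u ∧ f u = f v}.ncard := by
  obtain ⟨s, hs⟩ : ∃ s, s = k + l - 2 := ⟨_, rfl⟩
  let Q : Type := (Fin s → Fin s) × Fin (s * D + 1)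
  let A : Finset (Fin s) := Finset.univ.filter (fun i => i.val < k - 1)
  let A' : Finset (Fin s) := Finset.univ.filter (fun i => ¬ i.val < k - 1)
  have hA : A.card < k := by
    have h1 : A.card ≤ (Finset.range (k - 1)).card := by
      apply Finset.card_le_card_of_injOn (fun i => i.val)
      · intro i hi
        have h2 := (Finset.mem_filter.mp (Finset.mem_coe.mp hi)).2
        exact Finset.mem_coe.mpr (Finset.mem_range.mpr h2)
      · intro i _ j _ hij
        exact Fin.ext hij
    rw [Finset.card_range] at h1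
    omega
  have hA' : A'.card < l := by
    have h1 : A'.card ≤ (Finset.range (l - 1)).card := by
      apply Finset.card_le_card_of_injOn (fun i => i.val - (k - 1))
      · intro i hi
        have h2 := (Finset.mem_filter.mp (Finset.mem_coe.mp hi)).2
        have h3 := i.isLt
        refine Finset.mem_coe.mpr (Finset.mem_range.mpr ?_)
        show i.val - (k - 1) < l - 1
        omega
      · intro i hi j hj hij
        have h2 := (Finset.mem_filter.mp (Finset.mem_coe.mp hi)).2
        have h3 := (Finset.mem_filter.mp (Finset.mem_coe.mp hj)).2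
        have h4 : i.val - (k - 1) = j.val - (k - 1) := hij
        apply Fin.ext
        omega
    rw [Finset.card_range] at h1
    omega
  let G : SimpleGraph (Fin s ⊕ Q) := bip A
  let H : SimpleGraph (Fin s ⊕ Q) := bip A'
  let L : Fin s ⊕ Q → Finset ℕ := Sum.elim
    (fun i => Finset.univ.image (fun j : Fin s => Nat.pair i.val j.val))
    (fun q => Finset.univ.image (fun i : Fin s => Nat.pair i.val (q.1 i).val))
  have hadj : ∀ (i : Fin s) (q : Q), (G ⊔ H).Adj (Sum.inl i) (Sum.inr q) := by
    intro i q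
    by_cases h : i.val < k - 1
    · exact Or.inl ⟨i, Finset.mem_filter.mpr ⟨Finset.mem_univ _, h⟩, q, Or.inl ⟨rfl, rfl⟩⟩
    · exact Or.inr ⟨i, Finset.mem_filter.mpr ⟨Finset.mem_univ _, h⟩, q, Or.inl ⟨rfl, rfl⟩⟩
  refine ⟨Fin s ⊕ Q, inferInstance, G, H, L, bip_choosable A k hA, bip_choosable A' l hA',
    ?_, ?_⟩
  · rintro (i | q)
    · show (Finset.univ.image (fun j : Fin s => Nat.pair i.val j.val)).card = k + l - 2
      rw [Finset.card_image_of_injective, Finset.card_univ, Fintype.card_fin, hs]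
      intro a b hab
      exact Fin.ext (Nat.pair_eq_pair.mp hab).2
    · show (Finset.univ.image (fun i : Fin s => Nat.pair i.val (q.1 i).val)).card = k + l - 2
      rw [Finset.card_image_of_injective, Finset.card_univ, Fintype.card_fin, hs]
      intro a b hab
      exact Fin.ext (Nat.pair_eq_pair.mp hab).1
  · intro f hf
    have h1 : ∀ i : Fin s, ∃ j : Fin s, f (Sum.inl i) = Nat.pair i.val j.val := by
      intro i
      have h2 : f (Sum.inl i) ∈ Finset.univ.image (fun j : Fin s => Nat.pair i.val j.val) :=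
        hf (Sum.inl i)
      obtain ⟨j, -, hj⟩ := Finset.mem_image.mp h2
      exact ⟨j, hj.symm⟩
    choose σ hσ using h1
    have h2 : ∀ t : Fin (s * D + 1), ∃ i : Fin s, f (Sum.inr (σ, t)) = f (Sum.inl i) := by
      intro t
      have h3 : f (Sum.inr (σ, t)) ∈
          Finset.univ.image (fun i : Fin s => Nat.pair i.val (σ i).val) :=
        hf (Sum.inr (σ, t))
      obtain ⟨i, -, hi⟩ := Finset.mem_image.mp h3
      exact ⟨i, by rw [hσ i, ← hi]⟩
    choose g hg using h2
    obtain ⟨i, hi⟩ := Fintype.exists_lt_card_fiber_of_mul_lt_card (n := D) g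
      (by rw [Fintype.card_fin, Fintype.card_fin]; omega)
    refine ⟨Sum.inl i, lt_of_lt_of_le hi ?_⟩
    rw [← Set.ncard_coe_finset,
      ← Set.ncard_image_of_injective (f := fun t => (Sum.inr (σ, t) : Fin s ⊕ Q)) _ ?_]
    · apply Set.ncard_le_ncard ?_ (Set.toFinite _)
      rintro u ⟨t, ht, rfl⟩
      have h4 : g t = i := by
        rw [Finset.mem_coe, Finset.mem_filter] at ht
        exact ht.2
      refine ⟨hadj i (σ, t), ?_⟩
      rw [← h4]
      exact hg t
    · intro a b hab
      exact (Prod.mk.inj (Sum.inr.inj hab)).2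

end Pool.Agent.Lib_helper45.UB
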